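import Pool.Agent.helper12.TY.Spec

/-! Project TY (MP_baa4d7_al), row YWS: the block of the tensor power is stable. -/

set_option autoImplicit false

namespace Pool.Agent.TY

open Pool.Agent.helper58.DC Pool.Agent.DI Pool.Agent.GR Pool.Agent.OB Pool.Agent.TZ

theorem YWS (hPT : Pool.Agent.helper58.DC.PT_stmt) (hSK : Pool.Agent.helper58.DC.SK_stmt)
    (hIM : Pool.Agent.helper58.DC.IM_stmt) (hB1 : Pool.Agent.DI.B1_stmt) : YWS_stmt := by
  intro p _ M G _ _ χ hχ
  have : NeZero p := ⟨(Fact.out : p.Prime).ne_zero⟩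
  have hst : Stable (trivE G) M χ := by
    intro e
    have h1 : funMap ((trivE G).act e) χ = χ := by
      funext g
      have h2 := ((hB1 G).2 χ hχ).2.1 g e⁻¹
      change χ ((MulAut.conj e).symm g) = χ g
      rw [MulAut.conj_symm_apply]
      rw [inv_inv] at h2
      exact h2
    rw [h1]
    exact (hIM G M χ χ χ).1
  refine ⟨(hPT G (Tp p) p M χ hχ).1, hst, ?_⟩
  exact (hSK G G Unit (Tp p) (Tp p) (trivE G) (c0 p) M).2.1 χ hχ hst

end Pool.Agent.TY
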